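import Pool.Agent.Helper12_UNF.Stmts

/-!
# The Coxeter group of type `A_n` is finite

Cosets of the subgroup generated by all generators but the last one.
-/

set_option autoImplicit false

namespace Unf.H93

open Unf

/-- An abstract criterion: elements `s 0, ..., s n` with the relations of type `A_(n+1)`. -/
structure Rel (G : Type) [Group G] (n : ℕ) (s : ℕ → G) : Prop where
  sq : ∀ i ≤ n, s i * s i = 1
  comm : ∀ i j, i + 2 ≤ j → j ≤ n → s i * s j = s j * s i
  braid : ∀ i, i + 1 ≤ n → s i * s (i + 1) * s i = s (i + 1) * s i * s (i + 1)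

variable {G : Type} [Group G] {n : ℕ} {s : ℕ → G}

/-- The coset representatives `s n * s (n - 1) * ...` with `d` letters. -/
def y (n : ℕ) (s : ℕ → G) : ℕ → G
  | 0 => 1
  | d + 1 => y n s d * s (n - d)

theorem y_comm (h : Rel G n s) (i : ℕ) : ∀ d, i + 1 + d ≤ n → y n s d * s i = s i * y n s d := by
  intro d
  induction d with
  | zero => intro _; simp [y]
  | succ d ih =>
    intro hd
    have e := h.comm i (n - d) (by omega) (by omega)
    rw [y, mul_assoc, ← e, ← mul_assoc, ih (by omega), mul_assoc]

theorem y_shift (h : Rel G n s) (i : ℕ) (hi : i ≤ n) : ∀ d, d ≤ n + 1 → n + 2 ≤ i + d →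
    y n s d * s i = s (i - 1) * y n s d := by
  intro d
  induction d with
  | zero => intro _ h2; omega
  | succ d ih =>
    intro h1 h2
    by_cases hlast : n + 1 = i + d
    · -- `i = n - d + 1`
      obtain ⟨d', rfl⟩ : ∃ d', d = d' + 1 := ⟨d - 1, by omega⟩
      have e1 : n - d' = i := by omega
      have e2 : n - (d' + 1) = i - 1 := by omega
      have e3 : i - 1 + 1 = i := by omega
      have hb := h.braid (i - 1) (by omega)
      rw [e3] at hb
      have hc := y_comm h (i - 1) d' (by omega)
      rw [y, y, e1, e2]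
      calc y n s d' * s i * s (i - 1) * s i = y n s d' * (s i * s (i - 1) * s i) := by group
        _ = y n s d' * (s (i - 1) * s i * s (i - 1)) := by rw [hb]
        _ = (y n s d' * s (i - 1)) * s i * s (i - 1) := by group
        _ = s (i - 1) * (y n s d' * s i * s (i - 1)) := by rw [hc]; group
    · have e := h.comm (n - d) i (by omega) hi
      rw [y, mul_assoc, e, ← mul_assoc, ih (by omega) (by omega), mul_assoc]

/-- Right multiplication of a coset representative by a generator. -/
theorem y_mul (h : Rel G n s) (d : ℕ) (hd : d ≤ n + 1) (i : ℕ) (hi : i ≤ n) :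
    (∃ d' ≤ n + 1, y n s d * s i = y n s d') ∨
      ∃ j, j < n ∧ y n s d * s i = s j * y n s d := by
  rcases lt_trichotomy (i + d) n with h1 | h1 | h1
  · exact Or.inr ⟨i, by omega, y_comm h i d (by omega)⟩
  · left
    refine ⟨d + 1, by omega, ?_⟩
    rw [y, show n - d = i by omega]
  · by_cases h2 : i + d = n + 1
    · left
      obtain ⟨d', rfl⟩ : ∃ d', d = d' + 1 := ⟨d - 1, by omega⟩
      refine ⟨d', by omega, ?_⟩
      rw [y, show n - d' = i by omega, mul_assoc, h.sq i hi, mul_one]
    · exact Or.inr ⟨i - 1, by omega, y_shift h i hi d hd (by omega)⟩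

/-- Generators of the Coxeter group of type `A_n` with natural numbers as indices. -/
noncomputable def sA (n : ℕ) (i : ℕ) : (CoxeterMatrix.A n).Group :=
  if h : i < n then (CoxeterMatrix.A n).simple ⟨i, h⟩ else 1

theorem sA_of_lt {n i : ℕ} (h : i < n) : sA n i = (CoxeterMatrix.A n).simple ⟨i, h⟩ := dif_pos h

theorem simple_pow {S : Type} (M : CoxeterMatrix S) (i j : S) :
    (M.simple i * M.simple j) ^ M.M i j = 1 := M.toCoxeterSystem.simple_mul_simple_pow i j

theorem simple_sq {S : Type} (M : CoxeterMatrix S) (i : S) : M.simple i * M.simple i = 1 :=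
  M.toCoxeterSystem.simple_mul_simple_self i

theorem simple_inv {S : Type} (M : CoxeterMatrix S) (i : S) : (M.simple i)⁻¹ = M.simple i :=
  M.toCoxeterSystem.inv_simple i

/-- Two generators with label two commute. -/
theorem simple_comm {S : Type} (M : CoxeterMatrix S) (i j : S) (h : M.M i j = 2) :
    M.simple i * M.simple j = M.simple j * M.simple i := by
  have e := simple_pow M i j
  rw [h, pow_two] at e
  have e2 : M.simple i * M.simple j = (M.simple i * M.simple j)⁻¹ := eq_inv_of_mul_eq_one_left e
  rwa [mul_inv_rev, simple_inv, simple_inv] at e2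

/-- Two generators with label three satisfy the braid relation. -/
theorem simple_braid {S : Type} (M : CoxeterMatrix S) (i j : S) (h : M.M i j = 3) :
    M.simple i * M.simple j * M.simple i = M.simple j * M.simple i * M.simple j := by
  have e := simple_pow M i j
  rw [h, pow_succ, pow_two] at e
  have e2 : M.simple i * M.simple j * M.simple i =
      (M.simple j * M.simple i * M.simple j)⁻¹ := by
    refine eq_inv_of_mul_eq_one_left ?_
    rw [← e]
    group
  rw [mul_inv_rev, mul_inv_rev, simple_inv, simple_inv, ← mul_assoc] at e2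
  exact e2

theorem A_two (n : ℕ) (i j : Fin n) (h : i.1 + 2 ≤ j.1) : (CoxeterMatrix.A n).M i j = 2 := by
  have h1 : i ≠ j := fun e => by rw [e] at h; omega
  show (if i = j then 1 else (if (j : ℕ) + 1 = i ∨ (i : ℕ) + 1 = j then 3 else 2)) = 2
  rw [if_neg h1, if_neg (by omega)]

theorem A_three (n : ℕ) (i j : Fin n) (h : i.1 + 1 = j.1) : (CoxeterMatrix.A n).M i j = 3 := by
  have h1 : i ≠ j := fun e => by rw [e] at h; omega
  show (if i = j then 1 else (if (j : ℕ) + 1 = i ∨ (i : ℕ) + 1 = j then 3 else 2)) = 3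
  rw [if_neg h1, if_pos (Or.inr h)]

theorem relA (n : ℕ) : Rel (CoxeterMatrix.A (n + 1)).Group n (sA (n + 1)) where
  sq i hi := by
    rw [sA_of_lt (by omega)]
    exact simple_sq _ _
  comm i j hij hj := by
    rw [sA_of_lt (by omega), sA_of_lt (by omega)]
    exact simple_comm _ _ _ (A_two _ _ _ hij)
  braid i hi := by
    rw [sA_of_lt (by omega), sA_of_lt (by omega)]
    exact simple_braid _ _ _ (A_three _ _ _ rfl)

/-- The inclusion of the group of type `A_n`. -/
theorem exists_incA (n : ℕ) : ∃ φ : (CoxeterMatrix.A n).Group →* (CoxeterMatrix.A (n + 1)).Group,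
    ∀ i, i < n → φ (sA n i) = sA (n + 1) i := by
  have hl : (CoxeterMatrix.A n).IsLiftable
      (fun i : Fin n => (CoxeterMatrix.A (n + 1)).simple i.castSucc) := by
    intro i j
    have e := simple_pow (CoxeterMatrix.A (n + 1)) i.castSucc j.castSucc
    have e2 : (CoxeterMatrix.A (n + 1)).M i.castSucc j.castSucc = (CoxeterMatrix.A n).M i j := by
      show (if i.castSucc = j.castSucc then 1 else
        (if (j.castSucc : ℕ) + 1 = i.castSucc ∨ (i.castSucc : ℕ) + 1 = j.castSucc then 3 else 2)) =
        (if i = j then 1 else (if (j : ℕ) + 1 = i ∨ (i : ℕ) + 1 = j then 3 else 2))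
      simp only [Fin.castSucc_inj, Fin.val_castSucc]
    rw [e2] at e
    exact e
  refine ⟨(CoxeterMatrix.A n).toCoxeterSystem.lift ⟨_, hl⟩, fun i hi => ?_⟩
  rw [sA_of_lt hi, sA_of_lt (by omega)]
  exact (CoxeterMatrix.A n).toCoxeterSystem.lift_apply_simple hl ⟨i, hi⟩

/-- FNA: the Coxeter group of type `A_n` is finite. -/
theorem fNA : FnaStmt := by
  intro n
  induction n with
  | zero =>
    have : ∀ w : (CoxeterMatrix.A 0).Group, w = 1 := by
      intro w
      refine (CoxeterMatrix.A 0).toCoxeterSystem.simple_induction_right (p := fun w => w = 1) w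
        rfl ?_
      intro w i _
      exact i.elim0
    have hs : Subsingleton (CoxeterMatrix.A 0).Group := ⟨fun a b => by rw [this a, this b]⟩
    exact Finite.of_subsingleton
  | succ n ih =>
    obtain ⟨φ, hφ⟩ := exists_incA n
    refine Finite.of_surjective
      (fun p : (CoxeterMatrix.A n).Group × Fin (n + 2) => φ p.1 * y n (sA (n + 1)) p.2.1) ?_
    intro w
    refine (CoxeterMatrix.A (n + 1)).toCoxeterSystem.simple_induction_right
      (p := fun w => ∃ p : (CoxeterMatrix.A n).Group × Fin (n + 2),
        φ p.1 * y n (sA (n + 1)) p.2.1 = w) w ?_ ?_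
    · exact ⟨(1, 0), by simp [y]⟩
    · rintro w i ⟨⟨a, d⟩, rfl⟩
      have hi : (CoxeterMatrix.A (n + 1)).toCoxeterSystem.simple i = sA (n + 1) i.1 := by
        rw [sA_of_lt i.2]
        rfl
      rw [hi]
      rcases y_mul (relA n) d.1 (by omega) i.1 (by omega) with ⟨d', hd', e⟩ | ⟨j, hj, e⟩
      · refine ⟨(a, ⟨d', by omega⟩), ?_⟩
        show φ a * y n (sA (n + 1)) d' = φ a * y n (sA (n + 1)) d.1 * sA (n + 1) i.1
        rw [mul_assoc, e]
      · refine ⟨(a * sA n j, d), ?_⟩
        show φ (a * sA n j) * y n (sA (n + 1)) d.1 =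
          φ a * y n (sA (n + 1)) d.1 * sA (n + 1) i.1
        rw [mul_assoc (φ a), e, map_mul, hφ j hj, mul_assoc]

end Unf.H93
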