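import Pool.Agent.Helper12_UNF.Stmts

/-!
# Residual finiteness of all Artin groups from closed double cosets without infinite labels
-/

set_option autoImplicit false

namespace Unf.H93

open Unf Art

/-- The matrix with the label two instead of infinity. -/
def two {S : Type} (M : CoxeterMatrix S) : CoxeterMatrix S where
  M := Matrix.of fun s t => if M.M s t = 0 then 2 else M.M s t
  isSymm := by
    ext s t
    show (if M.M t s = 0 then 2 else M.M t s) = (if M.M s t = 0 then 2 else M.M s t)
    rw [show M.M t s = M.M s t from M.symmetric t s]
  diagonal s := by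
    show (if M.M s s = 0 then 2 else M.M s s) = 1
    rw [show M.M s s = 1 from M.diagonal s, if_neg one_ne_zero]
  off_diagonal s t h := by
    show (if M.M s t = 0 then 2 else M.M s t) ≠ 1
    by_cases h0 : M.M s t = 0
    · rw [if_pos h0]; norm_num
    · rw [if_neg h0]; exact M.off_diagonal s t h

theorem two_apply {S : Type} (M : CoxeterMatrix S) (s t : S) :
    (two M).M s t = if M.M s t = 0 then 2 else M.M s t := rfl

theorem two_ne {S : Type} (M : CoxeterMatrix S) (s t : S) : (two M).M s t ≠ 0 := by
  rw [two_apply]
  by_cases h0 : M.M s t = 0
  · rw [if_pos h0]; norm_num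
  · rwa [if_neg h0]

theorem two_eq {S : Type} (M : CoxeterMatrix S) (s t : S) (h : M.M s t ≠ 0) :
    (two M).M s t = M.M s t := by
  rw [two_apply, if_neg h]

/-- REDB: if double cosets of maximal parabolic subgroups are closed for all matrices without
infinite labels, then all Artin groups are residually finite. -/
theorem rEDB (hUnf : UnfStmt) (hCol : ColStmt) : RedbStmt := by
  intro hyp S _ M
  refine hUnf M fun C hC => ?_
  obtain ⟨θ, hθ⟩ := lift M (fun s => gen (two M) s) (fun s t hst => by
    have := relHolds (two M) s t (two_ne M s t)
    rwa [two_eq M s t hst] at this)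
  refine hCol M C (two M) θ some hθ ?_ ?_ (hyp S (two M) (two_ne M))
  · intro s hs t ht hst s' t' h1 h2
    obtain rfl : s = s' := Option.some.inj h1
    obtain rfl : t = t' := Option.some.inj h2
    exact ⟨hst, two_eq M s t (hC s hs t ht hst)⟩
  · intro s _
    exact ⟨Option.some_ne_none s, fun t ht _ h => ht (Option.some.inj h)⟩

end Unf.H93
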